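import Mathlib

namespace Pool.Agent.Results.MP_6c7e5c_co.LinearBound

/-- The number of permutations of `[n]` (read as words of length `n`) contained in the word `w` as
subsequences. -/
noncomputable def numPerm (n : ℕ) (w : List (Fin n)) : ℕ :=
  Nat.card {σ : Equiv.Perm (Fin n) // (List.ofFn σ).Sublist w}

/-- `h(n,m)`: the minimum length of a word over `[n]` containing at least `m` permutations. -/
noncomputable def h (n m : ℕ) : ℕ := sInf {L | ∃ w : List (Fin n), w.length = L ∧ m ≤ numPerm n w}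

/-- `ℓ(m,n)`: the least `l` with `C(l,n) ≥ m`. -/
noncomputable def ell (m n : ℕ) : ℕ := sInf {l | m ≤ l.choose n}

/-- the word `(1 2 … n)^c` -/
def wd (n c : ℕ) : List (Fin n) :=
  List.ofFn (fun p : Fin (c * n) => (⟨p.1 % n, Nat.mod_lt _ (by
    rcases Nat.eq_zero_or_pos n with h | h
    · exact absurd p.2 (by simp [h])
    · exact h)⟩ : Fin n))

lemma wd_length (n c : ℕ) : (wd n c).length = c * n := by simp [wd]

lemma wd_get (n c : ℕ) (p : Fin (wd n c).length) : ((wd n c).get p).1 = p.1 % n := by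
  unfold wd
  rw [List.get_ofFn]
  rfl

lemma sub_wd {n c : ℕ} (σ : Equiv.Perm (Fin n)) (g : Fin n → Fin c) (hg : Monotone g)
    (ht : ∀ i j, i < j → g i = g j → σ i < σ j) : (List.ofFn σ).Sublist (wd n c) := by
  have hlt : ∀ i : Fin n, (g i).1 * n + (σ i).1 < c * n := by
    intro i
    have h1 := (g i).2
    have h2 := (σ i).2
    calc (g i).1 * n + (σ i).1 < (g i).1 * n + n := by omega
      _ = ((g i).1 + 1) * n := by ring
      _ ≤ c * n := Nat.mul_le_mul_right _ (by omega)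
  have hmono : ∀ i j : Fin n, i < j → (g i).1 * n + (σ i).1 < (g j).1 * n + (σ j).1 := by
    intro i j hij
    rcases (hg hij.le).lt_or_eq with h1 | h1
    · have h2 : (g i).1 + 1 ≤ (g j).1 := h1
      have h3 := (σ i).2
      have h4 := Nat.mul_le_mul_right n h2
      have h5 : ((g i).1 + 1) * n = (g i).1 * n + n := by ring
      omega
    · have h2 : (σ i).1 < (σ j).1 := ht i j hij h1
      rw [h1]; omega
  rw [List.sublist_iff_exists_fin_orderEmbedding_get_eq]
  refine ⟨OrderEmbedding.ofStrictMono (fun i : Fin (List.ofFn σ).length =>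
    (⟨(g (i.cast (by simp))).1 * n + (σ (i.cast (by simp))).1, by
      rw [wd_length]; exact hlt _⟩ : Fin (wd n c).length)) ?_, ?_⟩
  · intro i j hij
    exact hmono _ _ hij
  · intro i
    apply Fin.ext
    rw [wd_get, List.get_ofFn]
    simp only [OrderEmbedding.coe_ofStrictMono]
    rw [Nat.mul_comm (g _).1 n, Nat.mul_add_mod, Nat.mod_eq_of_lt (σ _).2]

lemma card_mono (n c : ℕ) (hc : c ≤ n) :
    Nat.card {g : Fin n → Fin c // Monotone g} ≤ 4 ^ n := by
  have hinj : Function.Injective (fun g : {g : Fin n → Fin c // Monotone g} =>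
      (Finset.univ.image (fun i : Fin n =>
        (⟨(g.1 i).1 + i.1, by have := (g.1 i).2; have := i.2; omega⟩ : Fin (n + n))))) := by
    intro g1 g2 h12
    have hs : ∀ g : {g : Fin n → Fin c // Monotone g}, StrictMono (fun i : Fin n =>
        (⟨(g.1 i).1 + i.1, by have := (g.1 i).2; have := i.2; omega⟩ : Fin (n + n))) := by
      intro g i j hij
      have h1 : (g.1 i).1 ≤ (g.1 j).1 := g.2 hij.le
      have h2 : i.1 < j.1 := hij
      simp only [Fin.mk_lt_mk]
      omega
    have h3 := congrArg (fun s : Finset (Fin (n + n)) => (s : Set (Fin (n + n)))) h12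
    simp only [Finset.coe_image, Finset.coe_univ, Set.image_univ] at h3
    have h4 := (StrictMono.range_inj (hs g1) (hs g2)).mp h3
    apply Subtype.ext
    funext i
    have h5 := congrFun h4 i
    simp only [Fin.mk.injEq] at h5
    apply Fin.ext
    omega
  calc Nat.card {g : Fin n → Fin c // Monotone g} ≤ Nat.card (Finset (Fin (n + n))) :=
        Nat.card_le_card_of_injective _ hinj
    _ = 2 ^ (n + n) := by simp
    _ = 4 ^ n := by rw [← two_mul, pow_mul]; norm_num

lemma count_wd (n c : ℕ) (hc : c ≤ n) : c ^ n ≤ numPerm n (wd n c) * 4 ^ n := by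
  have hinj : Function.Injective (fun f : Fin n → Fin c =>
      ((⟨Tuple.sort f, sub_wd (Tuple.sort f) (f ∘ Tuple.sort f) (Tuple.monotone_sort f)
        ((Tuple.eq_sort_iff.mp rfl).2)⟩,
        ⟨f ∘ Tuple.sort f, Tuple.monotone_sort f⟩) :
        {σ : Equiv.Perm (Fin n) // (List.ofFn σ).Sublist (wd n c)} ×
          {g : Fin n → Fin c // Monotone g})) := by
    intro f1 f2 h12
    simp only [Prod.mk.injEq, Subtype.mk.injEq] at h12
    obtain ⟨h1, h2⟩ := h12
    rw [h1] at h2
    funext i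
    have := congrFun h2 ((Tuple.sort f2).symm i)
    simpa using this
  calc c ^ n = Nat.card (Fin n → Fin c) := by simp
    _ ≤ Nat.card ({σ : Equiv.Perm (Fin n) // (List.ofFn σ).Sublist (wd n c)} ×
          {g : Fin n → Fin c // Monotone g}) := Nat.card_le_card_of_injective _ hinj
    _ = numPerm n (wd n c) * Nat.card {g : Fin n → Fin c // Monotone g} := by
        rw [Nat.card_prod]; rfl
    _ ≤ numPerm n (wd n c) * 4 ^ n := Nat.mul_le_mul_left _ (card_mono n c hc)

lemma all_wd (n : ℕ) : numPerm n (wd n n) = n.factorial := by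
  unfold numPerm
  have : ∀ σ : Equiv.Perm (Fin n), (List.ofFn σ).Sublist (wd n n) := fun σ =>
    sub_wd σ id monotone_id (fun i j hij h => absurd h (ne_of_lt hij))
  rw [Nat.card_congr (Equiv.subtypeUnivEquiv this)]
  simp [Fintype.card_perm]

lemma h_le (n m c : ℕ) (hm : m ≤ numPerm n (wd n c)) : h n m ≤ c * n :=
  Nat.sInf_le ⟨wd n c, wd_length n c, hm⟩

lemma ell_mem (m n : ℕ) (hn : 1 ≤ n) : m ≤ (ell m n).choose n := by
  have hne : {l : ℕ | m ≤ l.choose n}.Nonempty := by
    refine ⟨m + n, ?_⟩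
    have h1 : (m + n).choose n = (m + n).choose m := by
      rw [Nat.choose_symm_add]
    show m ≤ (m + n).choose n
    have h2 : m + 1 ≤ (m + n).choose n := by
      calc m + 1 = (m + 1).choose 1 := by simp
        _ = (m + 1).choose m := by rw [Nat.choose_symm_add]
        _ ≤ (m + n).choose m := Nat.choose_le_choose _ (by omega)
        _ = (m + n).choose n := h1.symm
    omega
  exact Nat.sInf_mem hne

lemma choose_bound (l n : ℕ) : ((l.choose n : ℕ) : ℝ) * (n : ℝ) ^ n ≤ (3 * (l : ℝ)) ^ n := by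
  have h1 : ((l.choose n : ℕ) : ℝ) ≤ (l : ℝ) ^ n / (n.factorial : ℝ) := Nat.choose_le_pow_div n l
  have h2 : (n : ℝ) ^ n / (n.factorial : ℝ) ≤ 3 ^ n := by
    calc (n : ℝ) ^ n / (n.factorial : ℝ) ≤ Real.exp n :=
          Real.pow_div_factorial_le_exp _ (by positivity) n
      _ = Real.exp 1 ^ n := by rw [← Real.exp_nat_mul]; simp
      _ ≤ 3 ^ n := by
          apply pow_le_pow_left₀ (Real.exp_pos 1).le
          have := Real.exp_one_lt_d9
          linarith
  calc ((l.choose n : ℕ) : ℝ) * (n : ℝ) ^ n ≤ ((l : ℝ) ^ n / (n.factorial : ℝ)) * (n : ℝ) ^ n :=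
        mul_le_mul_of_nonneg_right h1 (by positivity)
    _ = (l : ℝ) ^ n * ((n : ℝ) ^ n / (n.factorial : ℝ)) := by ring
    _ ≤ (l : ℝ) ^ n * 3 ^ n := mul_le_mul_of_nonneg_left h2 (by positivity)
    _ = (3 * (l : ℝ)) ^ n := by rw [mul_pow]; ring

/-- `h(n,m) ≤ 13 ℓ(m,n)` for all `n ≥ 1` and `1 ≤ m ≤ n!`. -/
theorem main (n m : ℕ) (hn : 1 ≤ n) (hm : 1 ≤ m) (hmn : m ≤ n.factorial) :
    h n m ≤ 13 * ell m n := by
  set l := ell m n with hl
  have hl1 : m ≤ l.choose n := ell_mem m n hn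
  have hln : n ≤ l := by
    by_contra hcon
    rw [Nat.choose_eq_zero_of_lt (by omega)] at hl1
    omega
  -- the number of copies
  set c := (12 * l + (n - 1)) / n with hc
  have hcl : 12 * l ≤ c * n := by
    have h1 := Nat.div_add_mod (12 * l + (n - 1)) n
    have h2 := Nat.mod_lt (12 * l + (n - 1)) (show 0 < n by omega)
    rw [← hc] at h1
    rw [mul_comm c n]
    omega
  have hcu : c * n ≤ 13 * l := by
    have h1 := Nat.div_mul_le_self (12 * l + (n - 1)) n
    rw [← hc] at h1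
    omega
  rcases le_or_gt c n with hcn | hcn
  · refine (h_le n m c ?_).trans hcu
    have h1 := count_wd n c hcn
    have h2 := choose_bound l n
    have h3 : (m : ℝ) ≤ (l.choose n : ℕ) := by exact_mod_cast hl1
    have h4 : (c : ℝ) ^ n ≤ (numPerm n (wd n c) : ℝ) * 4 ^ n := by exact_mod_cast h1
    have h5 : (12 * (l : ℝ)) ^ n ≤ ((c : ℝ) * n) ^ n := by
      apply pow_le_pow_left₀ (by positivity)
      exact_mod_cast hcl
    have hnn : (0 : ℝ) < (n : ℝ) ^ n := by positivity
    have h6 : (m : ℝ) * (4 ^ n * (n : ℝ) ^ n) ≤ (numPerm n (wd n c) : ℝ) * (4 ^ n * (n : ℝ) ^ n) := by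
      calc (m : ℝ) * (4 ^ n * (n : ℝ) ^ n) = 4 ^ n * ((m : ℝ) * (n : ℝ) ^ n) := by ring
        _ ≤ 4 ^ n * (((l.choose n : ℕ) : ℝ) * (n : ℝ) ^ n) := by
            apply mul_le_mul_of_nonneg_left _ (by positivity)
            exact mul_le_mul_of_nonneg_right h3 hnn.le
        _ ≤ 4 ^ n * (3 * (l : ℝ)) ^ n := mul_le_mul_of_nonneg_left h2 (by positivity)
        _ = (12 * (l : ℝ)) ^ n := by rw [← mul_pow]; ring_nf
        _ ≤ ((c : ℝ) * n) ^ n := h5
        _ = (c : ℝ) ^ n * (n : ℝ) ^ n := by rw [mul_pow]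
        _ ≤ ((numPerm n (wd n c) : ℝ) * 4 ^ n) * (n : ℝ) ^ n :=
            mul_le_mul_of_nonneg_right h4 hnn.le
        _ = (numPerm n (wd n c) : ℝ) * (4 ^ n * (n : ℝ) ^ n) := by ring
    have h7 : (0 : ℝ) < 4 ^ n * (n : ℝ) ^ n := by positivity
    have h8 : (m : ℝ) ≤ (numPerm n (wd n c) : ℝ) := le_of_mul_le_mul_right h6 h7
    exact_mod_cast h8
  · have h1 : h n m ≤ n * n := h_le n m n (by rw [all_wd]; exact hmn)
    have h2 : n * n ≤ c * n := Nat.mul_le_mul_right _ hcn.le
    exact h1.trans (h2.trans hcu)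

/-- There is an absolute constant `C > 0` with `h(n,m) ≤ C ℓ(m,n)` for all `n ≥ 1` and
`1 ≤ m ≤ n!`. -/
theorem result : ∃ C : ℝ, 0 < C ∧ ∀ n m : ℕ, 1 ≤ n → 1 ≤ m → m ≤ n.factorial →
    (h n m : ℝ) ≤ C * (ell m n : ℝ) := by
  refine ⟨13, by norm_num, ?_⟩
  intro n m hn hm hmn
  exact_mod_cast main n m hn hm hmn

end Pool.Agent.Results.MP_6c7e5c_co.LinearBound
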